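import Pool.Agent.H56.Adiab.Display

/-!
# Negative answer to Q1: the adiabatic Weyl formula fails for a foliation of the three-torus

`M = ℝ³ / (l ℤ × ℤ × ℤ)`, `F` is spanned by `X = ∂_x + b(y) ∂_z` and the metric makes
`X, ∂_y, ∂_z` orthonormal (`p = 1`, `q = 2`). All holonomy covers of leaves of `F` and of `F_N` are
lines. For some `f ≥ 0` in `C_c^∞(ℝ)` the difference of the two sides of the formula is at least
`c h⁻²` for all small `h > 0`.
-/

open MeasureTheory Filter Topology Set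
open scoped ENNReal InnerProductSpace ContDiff
open Pool.Agent.H56.AdiabaticDefs

namespace Pool.Agent.Results.MP_ccad24_an.WeylFormulaFails

theorem result : ∃ (l : ℝ) (b f : ℝ → ℝ) (c h₀ : ℝ), IsShear l b ∧
    IsAdjoint l (dF b) (dFadj b) ∧ IsAdjoint l dH dHadj ∧
    (∀ h : ℝ, HasExtension (torusGraph b l h)) ∧ (∀ ν : Conormal, HasExtension (leafGraph b ν)) ∧
    ContDiff ℝ ∞ f ∧ HasCompactSupport f ∧ (∀ x, 0 ≤ f x) ∧
    leafwiseTrace b f l < ⊤ ∧ 0 < c ∧ 0 < h₀ ∧ WeylGap b f l c h₀ :=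
  Pool.Agent.H56.Adiab.display

end Pool.Agent.Results.MP_ccad24_an.WeylFormulaFails
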